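import Pool.Agent.H942R3.KK.Stmts2
import Pool.Agent.H942R3.KK.Root

/-! KK project: embeddings of a connected graph into a forest (helper251). -/

set_option autoImplicit false

namespace Pool.Agent.H942R3.KK

open Finset

theorem taskForest : TaskForest := by
  classical
  intro V _ G hG n k H D hn hkn hD hH
  have hn0 : (0 : ℝ) < n := by exact_mod_cast hn
  by_cases hE : (Emb G H) = ∅
  · rw [hE]
    simp only [Set.ncard_empty, Nat.cast_zero]
    positivity
  · obtain ⟨g0, hg0⟩ := Set.nonempty_iff_ne_empty.mpr hE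
    -- G is acyclic
    have hac : G.IsAcyclic := by
      let φ : G →g H := ⟨g0, fun {a b} h => hg0.2 a b h⟩
      exact SimpleGraph.IsAcyclic.comap φ hg0.1 hH
    have htree : G.IsTree := ⟨hG, hac⟩
    have hcard : G.edgeSet.ncard + 1 = Fintype.card V := by
      have h1 := htree.card_edgeFinset
      have h2 : G.edgeSet.ncard = G.edgeFinset.card := by
        rw [← SimpleGraph.coe_edgeFinset, Set.ncard_coe_finset]
      rw [h2]
      exact h1
    obtain ⟨x0⟩ := hG.nonempty
    have hroot := taskRoot V G hG k H D hD x0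
    have hcount : (Emb G H).ncard ≤ k * D ^ (Fintype.card V - 1) := by
      have hcov : Emb G H = ⋃ u : Fin k, {g | g ∈ Emb G H ∧ g x0 = u} := by
        ext g
        simp
      have h3 : (⋃ u : Fin k, {g | g ∈ Emb G H ∧ g x0 = u}).ncard ≤
          ∑ u : Fin k, {g | g ∈ Emb G H ∧ g x0 = u}.ncard := by
        have := Set.ncard_iUnion_le_of_fintype (fun u : Fin k => {g : V → Fin k | g ∈ Emb G H ∧ g x0 = u})
        exact this
      calc (Emb G H).ncard = (⋃ u : Fin k, {g | g ∈ Emb G H ∧ g x0 = u}).ncard := by rw [← hcov]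
        _ ≤ ∑ u : Fin k, {g | g ∈ Emb G H ∧ g x0 = u}.ncard := h3
        _ ≤ ∑ _u : Fin k, D ^ (Fintype.card V - 1) := Finset.sum_le_sum fun u _ => hroot u
        _ = k * D ^ (Fintype.card V - 1) := by simp
    have he : Fintype.card V - 1 = G.edgeSet.ncard := by omega
    rw [he] at hcount
    rw [← hcard]
    have h4 : ((Emb G H).ncard : ℝ) ≤ (k : ℝ) * (D : ℝ) ^ G.edgeSet.ncard := by
      exact_mod_cast hcount
    have h5 : (k : ℝ) ≤ n := by exact_mod_cast hkn
    calc ((Emb G H).ncard : ℝ) ≤ (k : ℝ) * (D : ℝ) ^ G.edgeSet.ncard := h4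
      _ ≤ (n : ℝ) * (D : ℝ) ^ G.edgeSet.ncard :=
          mul_le_mul_of_nonneg_right h5 (by positivity)
      _ = (n : ℝ) ^ (G.edgeSet.ncard + 1) * ((D : ℝ) / n) ^ G.edgeSet.ncard := by
          rw [div_pow, pow_succ]
          field_simp

end Pool.Agent.H942R3.KK
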